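import Pool.Agent.W495.FM.HomDefs

/-!
# The intersection form of a closed fibre: definitions
-/

set_option autoImplicit false

namespace Pool.Agent.R900.BB

open Pool.Agent.W495.FM

/-- The properties of the intersection form: `Z` and `Z'` are the groups `CH_i(Y) ⊗ ℚ` and
`CH_a(Y) ⊗ ℚ` with their classes `r` and `r'`, `fr` and `fr'` are the Frobenius operators, and `push` is
the map `CH_a(Y) → CH^i(𝒳)`. -/
structure IsForm {Ω E E' A Z Z' : Type} [Field Ω] [AddCommGroup E] [Module Ω E] [AddCommGroup E']
    [Module Ω E'] (form : E → E' → Ω) (fr : E → E) (fr' : E' → E') (r : Z → E) (r' : Z' → E')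
    (num : A → Z → ℚ) (push : Z' → A) : Prop where
  bilin : IsBilin Ω form
  frob_form : ∀ u w, form (fr u) (fr' w) = form u w
  form_push : ∀ f z, (num (push f) z : Ω) = form (r z) (r' f)

/-- `num x z` are the intersection numbers of cycles `x` in `A = CH^i(𝒳)` with cycles `z` in `CH_i(Y)`,
where `Y` is a closed fibre, `push` is the push-forward of `CH_a(Y)` to `A`, and `triv` are the cycles
whose restriction to the generic fibre is cohomologically trivial. There is an intersection form of
classes with support in `Y`, such that `num x z = 0` if the class of `z` is in its kernel and `x` is in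
`triv`. -/
def HasForm {Ω V A : Type} [Field Ω] (T : Homology Ω V) (Y : V) (i a : ℤ)
    (num : A → T.M Y (2 * i) i → ℚ) (push : T.M Y (2 * a) a → A) (triv : A → Prop) : Prop :=
  ∃ form : T.E Y (2 * i) i → T.E Y (2 * a) a → Ω,
    IsForm form (T.frob Y (2 * i) i) (T.frob Y (2 * a) a) (T.reg Y (2 * i) i)
      (T.reg Y (2 * a) a) num push ∧
    ∀ x z, triv x → (∀ w, form (T.reg Y (2 * i) i z) w = 0) → num x z = 0

end Pool.Agent.R900.BB
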