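import Pool.Agent.W495.FM.SpreadDefs
import Pool.Agent.R900.BB.FormDefs

/-!
# Cycles on a regular proper flat model: definitions

`X` is a smooth proper variety of dimension `d` over a number field, `𝒳` is a regular proper flat model
over the ring of integers, and `i + a = d + 1`. For a closed point `v` let `Y v` be the fibre of `𝒳` over
`v`, a scheme over a finite field. In the notation of homology theories `CH_i(Y v) ⊗ ℚ` is the group
`M (Y v) (2 i) i`. The cycles in it have codimension `a` on `𝒳`, and those in `CH_a(Y v)` have
codimension `i`.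
-/

set_option autoImplicit false

namespace Pool.Agent.R900.BB

open Pool.Agent.W495.FM

/-- The conjecture of the monodromy weight filtration for a space `L` of weight `n`, such as
`L = H^m(X, ℚ_ℓ(c))` for a smooth proper variety `X` over a local field and `n = m - 2 c`: `L` is
spanned by subspaces `wt w` on which all eigenvalues of a lift `F` of the geometric Frobenius have the
absolute value `Q ^ (w / 2)`, in particular they are different from one if `w ≠ 0`, and the powers
`N ^ k` of the monodromy operator (which decreases the weights by two) are isomorphisms of `wt (n + k)`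
with `wt (n - k)`. -/
structure HasWM (Ω : Type) {L : Type} [Field Ω] [AddCommGroup L] [Module Ω L] (F N : L → L) (n : ℤ)
    (wt : ℤ → Submodule Ω L) : Prop where
  linF : IsLin Ω F
  linN : IsLin Ω N
  top : ⨆ w, wt w = ⊤
  inv : ∀ w, w ≠ 0 → ∀ x ∈ wt w, ∃ y ∈ wt w, F y - y = x
  wm : ∀ k : ℕ, Set.BijOn N^[k] (wt (n + k)) (wt (n - k))

/-- The data of the first cohomology of the inertia group: `H = H^(2 i)(X, Ω(i))` over the maximal
unramified extension of the local field, with the Frobenius `frob`, `L = H^(2 i - 1)(X, Ω(i - 1))` over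
the algebraic closure, with a lift `frobL` of the Frobenius, the monodromy operator `mon` and the
subspaces `wt w` of weight `w`, and the map `co` of `L` onto its coinvariants under the inertia group,
which are the kernel of the map of `H` to the cohomology over the algebraic closure. -/
structure Inertia (Ω : Type) [Field Ω] where
  H : Type
  [grpH : AddCommGroup H]
  [modH : Module Ω H]
  L : Type
  [grpL : AddCommGroup L]
  [modL : Module Ω L]
  frob : H → H
  frobL : L → L
  mon : L → L
  wt : ℤ → Submodule Ω L
  co : L → H

attribute [instance] Inertia.grpH Inertia.modH Inertia.grpL Inertia.modL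

/-- The properties of the coinvariants, with the weight-monodromy conjecture for `L`, whose weight is
`2 i - 1 - 2 (i - 1) = 1`. -/
structure IsInertia {Ω : Type} [Field Ω] (I : Inertia Ω) : Prop where
  finite : FiniteDimensional Ω I.H
  lin : IsLin Ω I.frob
  lin_co : IsLin Ω I.co
  co_frob : ∀ l, I.co (I.frobL l) = I.frob (I.co l)
  co_mon : ∀ l, I.co (I.mon l) = 0
  wm : HasWM Ω I.frobL I.mon 1 I.wt

/-- Data of `ℓ`-adic classes at a closed point `v` with fibre `Y`. The group `A` is `CH^i(𝒳) ⊗ ℚ` and `G`
is `CH^i(X) ⊗ ℚ`, `E` is `H_(2 i)(Y, Ω(i))`, which is also the group `H^(2 a)_Y(𝒳, Ω(a))`, and `E'` is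
`H_(2 a)(Y, Ω(a))`; their dual spaces are `H^(2 i)(Y, Ω(i))` and `H^(2 a)(Y, Ω(a))`. Moreover
`N = H^(2 a - 1)(X, Ω(a))` over the maximal unramified extension of the local field. -/
structure Place (Ω E E' A G : Type) [Field Ω] (I : Inertia Ω) where
  N : Type
  [grpN : AddCommGroup N]
  [modN : Module Ω N]
  /-- the class in `H^(2 i)(Y, Ω(i))` of a cycle on `𝒳` -/
  cl : A → E → Ω
  /-- the map `H^(2 a)_Y(𝒳, Ω(a)) → H^(2 a)(Y, Ω(a))` -/
  form : E → E' → Ω
  /-- the boundary map of the localisation sequence -/
  bd : N → E
  /-- the cup product with values in `H^(2 d + 1)(X, Ω(d + 1)) = Ω` -/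
  cup : I.H → N → Ω
  /-- the class in `H = H^(2 i)(X, Ω(i))` of a cycle on `X` -/
  clX : G → I.H

attribute [instance] Place.grpN Place.modN

/-- The properties of the classes: `Z` is the group `CH_i(Y) ⊗ ℚ` with the classes `r`, `num x z` is the
intersection number of the cycle `x` on `𝒳` with `z`. -/
structure IsPlace {Ω E E' A G Z : Type} [Field Ω] {I : Inertia Ω} (D : Place Ω E E' A G I)
    (r : Z → E) (num : A → Z → ℚ) (res : A → G) (trivial : G → Prop) : Prop where
  cl_num : ∀ x z, (num x z : Ω) = D.cl x (r z)
  /-- the localisation sequence -/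
  exact : ∀ u, (∀ w, D.form u w = 0) → ∃ n, D.bd n = u
  bilin_cup : IsBilin Ω D.cup
  /-- the projection formula -/
  cl_bd : ∀ x n, D.cl x (D.bd n) = D.cup (D.clX (res x)) n
  frob_cl : ∀ c, I.frob (D.clX c) = D.clX c
  /-- the classes of cohomologically trivial cycles vanish over the algebraic closure -/
  triv : ∀ c, trivial c → ∃ l, I.co l = D.clX c

variable {P : Type} {Ω V : P → Type} [∀ v, Field (Ω v)]

/-- Data of cycles on the model `𝒳`: the groups `A = CH^i(𝒳) ⊗ ℚ`, `B = CH^a(𝒳) ⊗ ℚ`,
`G = CH^i(X) ⊗ ℚ`, `G' = CH^a(X) ⊗ ℚ` with the restriction maps `res`, `res'`, the cohomologically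
`trivial` cycles on `X`, the push-forwards `push`, `push'` of cycles in closed fibres, the intersection
numbers `num` of cycles on `𝒳` with cycles in closed fibres, the pairing `gs` of Gillet and Soulé, and the
logarithms of the norms of the closed points. -/
structure Model (T : ∀ v, Homology (Ω v) (V v)) (Y : ∀ v, V v) (i a : ℤ) where
  A : Type
  [grpA : AddCommGroup A]
  [modA : Module ℚ A]
  B : Type
  [grpB : AddCommGroup B]
  [modB : Module ℚ B]
  G : Type
  [grpG : AddCommGroup G]
  [modG : Module ℚ G]
  G' : Type
  [grpG' : AddCommGroup G']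
  [modG' : Module ℚ G']
  res : A → G
  res' : B → G'
  trivial : G → Prop
  push : ∀ v, (T v).M (Y v) (2 * a) a → A
  push' : ∀ v, (T v).M (Y v) (2 * i) i → B
  num : ∀ v, A → (T v).M (Y v) (2 * i) i → ℚ
  gs : A → B → ℝ
  logN : P → ℝ

attribute [instance] Model.grpA Model.modA Model.grpB Model.modB Model.grpG Model.modG Model.grpG'
  Model.modG'

variable {T : ∀ v, Homology (Ω v) (V v)} {Y : ∀ v, V v} {i a : ℤ}

/-- The formal properties of cycles on `𝒳`: the cycles on `X` extend to `𝒳`, the cycles with the
restriction zero are supported in closed fibres, and cycles in different fibres do not meet. -/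
structure IsModel (M : Model T Y i a) : Prop where
  lin : IsLin ℚ M.res
  surj : ∀ c, ∃ x, M.res x = c
  res_push : ∀ v f, M.res (M.push v f) = 0
  fibral : ∀ z, M.res' z = 0 → z ∈ Submodule.span ℚ (⋃ v, Set.range (M.push' v))
  bilin : ∀ v, IsBilin ℚ (M.num v)
  num_ne : ∀ v w, v ≠ w → ∀ f z, M.num w (M.push v f) z = 0

/-- The pairing of a cycle `x` is linear in the second variable, and for cycles in the fibre over `v` it
is the product of the intersection number and the logarithm of the norm of `v`. -/
structure IsGSAt (M : Model T Y i a) (x : M.A) : Prop where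
  add : ∀ z z', M.gs x (z + z') = M.gs x z + M.gs x z'
  smul : ∀ (q : ℚ) z, M.gs x (q • z) = q * M.gs x z
  gs_push : ∀ v z, M.gs x (M.push' v z) = M.logN v * M.num v x z

/-- The properties of the pairing of Gillet and Soulé, for cycles `x` whose restriction to `X` is
cohomologically trivial. -/
def IsGS (M : Model T Y i a) : Prop := ∀ x, M.trivial (M.res x) → IsGSAt M x

/-- The assertion of Beilinson and Bloch: all cohomologically trivial cycles on `X` extend to cycles on
`𝒳` that are orthogonal to all cycles supported in closed fibres. -/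
def LiftsOrthogonally (M : Model T Y i a) : Prop :=
  ∀ c, M.trivial c → ∃ x, M.res x = c ∧ ∀ z, M.res' z = 0 → M.gs x z = 0

/-- The fibre over `v` is smooth, or at least it has the following property: cycles on `𝒳` whose
restriction to `X` is cohomologically trivial have intersection numbers zero with all cycles in the
fibre. -/
def IsGoodPlace (M : Model T Y i a) (v : P) : Prop :=
  ∀ x, M.trivial (M.res x) → ∀ z, M.num v x z = 0

/-- The `ℓ`-adic classes at the place `v`, for which the weight-monodromy conjecture holds for
`H^(2 i - 1)(X)`. -/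
def HasClasses (M : Model T Y i a) (v : P) : Prop :=
  ∃ (I : Inertia (Ω v))
    (D : Place (Ω v) ((T v).E (Y v) (2 * i) i) ((T v).E (Y v) (2 * a) a) M.A M.G I),
    IsInertia I ∧ IsPlace D ((T v).reg (Y v) (2 * i) i) (M.num v) M.res M.trivial ∧
      IsForm D.form ((T v).frob (Y v) (2 * i) i) ((T v).frob (Y v) (2 * a) a)
        ((T v).reg (Y v) (2 * i) i) ((T v).reg (Y v) (2 * a) a) (M.num v) (M.push v)

end Pool.Agent.R900.BB
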