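import Pool.Agent.R900.BB.Defs

/-!
# Orthogonal extension of cohomologically trivial cycles
-/

set_option autoImplicit false

namespace Pool.Agent.R900.BB

open Pool.Agent.W495.FM Module

section wm

variable {Ω L H : Type} [Field Ω] [AddCommGroup L] [Module Ω L] [AddCommGroup H] [Module Ω H]

/-- The coinvariants have no invariant elements. -/
theorem inv_zero_aux [FiniteDimensional Ω H] {F N : L → L} {wt : ℤ → Submodule Ω L}
    (hw : HasWM Ω F N 1 wt) {co : L →ₗ[Ω] H} {fr : H →ₗ[Ω] H}
    (h1 : ∀ l, co (F l) = fr (co l)) (h2 : ∀ l, co (N l) = 0) {l : L} (hl : fr (co l) = co l) :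
    co l = 0 := by
  have key : ∀ m : L, ∃ y : L, co m = fr (co y) - co y := by
    intro m
    have hm : m ∈ ⨆ w, wt w := by rw [hw.top]; exact Submodule.mem_top
    induction hm using Submodule.iSup_induction' with
    | mem w x hx =>
      by_cases h0 : w = 0
      · subst h0
        have hk := (hw.wm 1).surjOn
        have hx' : x ∈ (wt (1 - ((1 : ℕ) : ℤ)) : Set L) := by simpa using hx
        obtain ⟨z, _, hz⟩ := hk hx'
        refine ⟨0, ?_⟩
        have : N z = x := by simpa using hz
        rw [← this, h2, map_zero, map_zero, sub_zero]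
      · obtain ⟨y, _, hy⟩ := hw.inv w h0 x hx
        exact ⟨y, by rw [← hy, map_sub, h1]⟩
    | zero => exact ⟨0, by rw [map_zero, map_zero, sub_zero]⟩
    | add x y _ _ hx hy =>
      obtain ⟨u, hu⟩ := hx
      obtain ⟨v, hv⟩ := hy
      exact ⟨u + v, by rw [map_add, hu, hv, map_add, map_add]; abel⟩
  -- the map `fr - 1` on the range of `co`
  let R := LinearMap.range co
  let D : H →ₗ[Ω] H := fr - LinearMap.id
  have hD : ∀ x, D x = fr x - x := fun x => rfl
  have hR : ∀ x ∈ R, D x ∈ R := by
    rintro _ ⟨m, rfl⟩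
    exact ⟨F m - m, by rw [map_sub, h1, hD]⟩
  let g : R →ₗ[Ω] R := D.restrict hR
  have hg : Function.Surjective g := by
    rintro ⟨_, m, rfl⟩
    obtain ⟨y, hy⟩ := key m
    refine ⟨⟨co y, y, rfl⟩, Subtype.ext ?_⟩
    change D (co y) = co m
    rw [hy, hD]
  have hinj : Function.Injective g := LinearMap.injective_iff_surjective.2 hg
  have h3 : g ⟨co l, l, rfl⟩ = g 0 := by
    rw [map_zero]
    apply Subtype.ext
    change D (co l) = 0
    rw [hD, hl, sub_self]
  exact congrArg Subtype.val (hinj h3)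

theorem inv_zero {I : Inertia Ω} (hI : IsInertia I) {l : I.L} (hl : I.frob (I.co l) = I.co l) :
    I.co l = 0 := by
  have := hI.finite
  obtain ⟨co, hco⟩ := hI.lin_co
  obtain ⟨fr, hfr⟩ := hI.lin
  rw [hco] at hl ⊢
  rw [hfr] at hl
  refine inv_zero_aux hI.wm (fun l => ?_) (fun l => ?_) hl
  · rw [← hco, hI.co_frob, hfr, hco]
  · rw [← hco, hI.co_mon]

end wm

section onto

variable {Ω : Type} [Field Ω] {V : Type} {T : Homology Ω V} {Y : V}

/-- A functional that is invariant under the Frobenius and vanishes on cycle classes is zero. -/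
theorem functional_zero (hT : IsHomology T) {a : ℤ} (hY : IsOnto T Y a)
    (φ : T.E Y (2 * a) a →ₗ[Ω] Ω) (h1 : ∀ e, φ (T.frob Y _ _ e) = φ e)
    (h2 : ∀ x, φ (T.reg Y _ _ x) = 0) : φ = 0 := by
  have hfin := hT.finite Y (2 * a) a
  obtain ⟨f, hf⟩ := hT.lin Y (2 * a) a
  set g : Module.End Ω (T.E Y (2 * a) a) := f - 1 with hg
  have hgx : ∀ e, g e = T.frob Y _ _ e - e := fun e => by
    rw [hg, LinearMap.sub_apply, ← hf, Module.End.one_apply]
  have hss : ∀ e, g (g e) = 0 → g e = 0 := by
    intro e he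
    rw [hgx, sub_eq_zero]
    apply hY.2
    rw [hgx, hgx, sub_eq_zero] at he
    exact he
  have hker : ∀ e, g e = 0 → φ e = 0 := by
    intro e he
    rw [hgx, sub_eq_zero] at he
    have h3 := hY.1 e he
    have h4 : Submodule.span Ω (Set.range (T.reg Y (2 * a) a)) ≤ LinearMap.ker φ := by
      rw [Submodule.span_le]
      rintro _ ⟨x, rfl⟩
      exact h2 x
    exact h4 h3
  have hran : ∀ e, φ (g e) = 0 := fun e => by rw [hgx, map_sub, h1, sub_self]
  -- `E` is the sum of the kernel and the range of `g`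
  have hdisj : Disjoint (LinearMap.ker g) (LinearMap.range g) := by
    rw [Submodule.disjoint_def]
    rintro x hx ⟨y, rfl⟩
    exact hss y hx
  have hsup : LinearMap.ker g ⊔ LinearMap.range g = ⊤ := by
    apply Submodule.eq_top_of_disjoint _ _ _ hdisj
    rw [add_comm]
    exact (LinearMap.finrank_range_add_finrank_ker g).symm.le
  ext e
  have he : e ∈ LinearMap.ker g ⊔ LinearMap.range g := by rw [hsup]; exact Submodule.mem_top
  obtain ⟨y, hy, z, ⟨w, rfl⟩, rfl⟩ := Submodule.mem_sup.1 he
  rw [map_add, hker y hy, hran, add_zero, LinearMap.zero_apply]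

end onto

section localpart

variable {Ω : Type} [Field Ω] [CharZero Ω] {V : Type} {T : Homology Ω V} {Y : V} {i a : ℤ}

/-- The local part: the intersection numbers of a cycle with cohomologically trivial restriction are
the negatives of those of a cycle in the fibre. -/
theorem exists_of_form (hT : IsHomology T) (hY : IsOnto T Y a) {A : Type} [AddCommGroup A]
    [Module ℚ A] {num : A → T.M Y (2 * i) i → ℚ} {push : T.M Y (2 * a) a → A} {tr : A → Prop}
    (hD : HasForm T Y i a num push tr) (hnum : IsBilin ℚ num) {x : A} (hx : tr x) :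
    ∃ f, ∀ z, num (push f) z = - num x z := by
  classical
  obtain ⟨form', ⟨⟨form, hform⟩, hfrob, hpush⟩, hzero⟩ := hD
  simp only [hform] at hfrob hpush hzero
  have hfin := hT.finite Y (2 * a) a
  -- the classes of cycles in the fibre
  obtain ⟨b, hb, hspan, hind⟩ := exists_linearIndependent Ω (Set.range (T.reg Y (2 * a) a))
  have hbf : b.Finite := hind.setFinite
  have := hbf.fintype
  choose f hf using fun e : b => hb e.2
  obtain ⟨ψ, hψ⟩ := hnum
  -- the functionals
  let Lk : b → (T.M Y (2 * i) i →ₗ[ℚ] ℚ) := fun e => ψ (push (f e))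
  have hLk : ∀ e z, Lk e z = num (push (f e)) z := fun e z => (hψ _ _).symm
  have hle : ⨅ e, LinearMap.ker (Lk e) ≤ LinearMap.ker (ψ x) := by
    intro z hz
    rw [Submodule.mem_iInf] at hz
    rw [LinearMap.mem_ker, ← hψ]
    have h0 : form (T.reg Y _ _ z) = 0 := by
      apply functional_zero hT hY
      · intro e
        have h1 := hfrob (T.reg Y _ _ z) e
        rwa [hT.frob_reg] at h1
      · intro y
        have h2 : Submodule.span Ω b ≤ LinearMap.ker (form (T.reg Y _ _ z)) := by
          rw [Submodule.span_le]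
          intro e he
          rw [SetLike.mem_coe, LinearMap.mem_ker]
          have h3 := hf ⟨e, he⟩
          simp only at h3
          rw [← h3, ← hpush, ← hLk, LinearMap.mem_ker.1 (hz _), Rat.cast_zero]
        rw [hspan] at h2
        exact h2 (Submodule.subset_span ⟨y, rfl⟩)
    exact hzero x z hx fun w => by rw [h0, LinearMap.zero_apply]
  have hmem := mem_span_of_iInf_ker_le_ker hle
  obtain ⟨c, hc⟩ := (Submodule.mem_span_range_iff_exists_fun ℚ).1 hmem
  refine ⟨- ∑ e, c e • f e, fun z => ?_⟩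
  have h6 : (num (push (- ∑ e, c e • f e)) z : Ω) = ((- num x z : ℚ) : Ω) := by
    rw [hpush]
    obtain ⟨R, hR⟩ : ∃ R : T.M Y (2 * a) a →+ T.E Y (2 * a) a, ∀ y, T.reg Y _ _ y = R y :=
      ⟨AddMonoidHom.mk' (T.reg Y _ _) (hT.add Y _ _), fun y => rfl⟩
    have h7 : ∀ (q : ℚ) y, T.reg Y (2 * a) a (q • y) = (q : Ω) • T.reg Y _ _ y := by
      intro q y
      rw [hR, hR]
      exact map_ratCast_smul R ℚ Ω q y
    rw [hR, map_neg, map_sum, map_neg, map_sum, Rat.cast_neg]
    congr 1
    have h8 : num x z = ∑ e, c e * num (push (f e)) z := by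
      rw [hψ, ← hc, LinearMap.sum_apply]
      refine Finset.sum_congr rfl fun e _ => ?_
      rw [LinearMap.smul_apply, hLk, smul_eq_mul]
    rw [h8, Rat.cast_sum]
    refine Finset.sum_congr rfl fun e _ => ?_
    rw [← hR, h7, map_smul, smul_eq_mul, Rat.cast_mul, hpush]
  exact_mod_cast h6

theorem hasForm {A G : Type} {I : Inertia Ω} (hI : IsInertia I)
    (D : Place Ω (T.E Y (2 * i) i) (T.E Y (2 * a) a) A G I)
    {num : A → T.M Y (2 * i) i → ℚ} {push : T.M Y (2 * a) a → A} {res : A → G} {tr : G → Prop}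
    (hD : IsPlace D (T.reg Y _ _) num res tr)
    (hF : IsForm D.form (T.frob Y _ _) (T.frob Y _ _) (T.reg Y _ _) (T.reg Y _ _) num push) :
    HasForm T Y i a num push fun x => tr (res x) := by
  refine ⟨D.form, hF, fun x z hx h0 => ?_⟩
  obtain ⟨n, hn⟩ := hD.exact (T.reg Y _ _ z) h0
  have h4 : D.clX (res x) = 0 := by
    obtain ⟨l, hl⟩ := hD.triv _ hx
    rw [← hl]
    refine inv_zero hI ?_
    rw [hl, hD.frob_cl]
  obtain ⟨cup, hcup⟩ := hD.bilin_cup
  have h5 : (num x z : Ω) = 0 := by
    rw [hD.cl_num, ← hn, hD.cl_bd, h4, hcup, map_zero, LinearMap.zero_apply]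
  exact_mod_cast h5

end localpart

section compact

variable {P : Type} {Ω V : P → Type} [∀ v, Field (Ω v)] [∀ v, CharZero (Ω v)]
  {T : ∀ v, Homology (Ω v) (V v)} {Y : ∀ v, V v} {i a : ℤ}

/-- The theorem in terms of intersection numbers. -/
theorem exists_orthogonal (hT : ∀ v, IsHomology (T v)) {A : Type} [AddCommGroup A] [Module ℚ A]
    {push : ∀ v, (T v).M (Y v) (2 * a) a → A} {num : ∀ v, A → (T v).M (Y v) (2 * i) i → ℚ}
    {tr : A → Prop} (htr : ∀ v f x, tr x → tr (x + push v f))
    (hnum : ∀ v, IsBilin ℚ (num v)) (hne : ∀ v w, v ≠ w → ∀ f z, num w (push v f) z = 0)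
    {bad : Set P} (hbad : bad.Finite) (hgood : ∀ v, v ∉ bad → ∀ x z, tr x → num v x z = 0)
    (hcl : ∀ v ∈ bad, HasForm (T v) (Y v) i a (num v) (push v) tr)
    (hY : ∀ v ∈ bad, IsOnto (T v) (Y v) a) {x : A} (hx : tr x) :
    ∃ y, y - x ∈ Submodule.span ℚ (⋃ v, Set.range (push v)) ∧ ∀ v z, num v y z = 0 := by
  classical
  have key : ∀ v, v ∈ bad → ∃ f, ∀ z, num v (push v f) z = - num v x z := fun v hv =>
    exists_of_form (hT v) (hY v hv) (hcl v hv) (hnum v) hx
  choose! f hf using key
  have hs : ∀ s : Finset P, tr (x + ∑ v ∈ s, push v (f v)) := by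
    intro s
    induction s using Finset.induction_on with
    | empty => rwa [Finset.sum_empty, add_zero]
    | insert v s hv ih =>
      rw [Finset.sum_insert hv, add_comm (push v (f v)), ← add_assoc]
      exact htr v _ _ ih
  refine ⟨x + ∑ v ∈ hbad.toFinset, push v (f v), ?_, fun w z => ?_⟩
  · rw [add_sub_cancel_left]
    exact Submodule.sum_mem _ fun v _ =>
      Submodule.subset_span (Set.mem_iUnion.2 ⟨v, ⟨f v, rfl⟩⟩)
  · by_cases hw : w ∈ bad
    · obtain ⟨ψ, hψ⟩ := hnum w
      rw [hψ, map_add, map_sum, LinearMap.add_apply, LinearMap.sum_apply, Finset.sum_eq_single w]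
      · rw [← hψ, ← hψ, hf w hw, add_neg_cancel]
      · intro v _ hv
        rw [← hψ]
        exact hne v w hv _ _
      · intro h
        exact absurd (hbad.mem_toFinset.2 hw) h
    · exact hgood w hw _ z (hs _)

end compact

section globalpart

variable {P : Type} {Ω V : P → Type} [∀ v, Field (Ω v)] [∀ v, CharZero (Ω v)]
  {T : ∀ v, Homology (Ω v) (V v)} {Y : ∀ v, V v} {i a : ℤ}

/-- All cohomologically trivial cycles extend to cycles orthogonal to those in closed fibres, if the
Tate conjecture and the semisimplicity hold for the homology of degree `2 a` of the bad fibres and the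
weight-monodromy conjecture for `H^(2 i - 1)(X)`. -/
theorem lifts (hT : ∀ v, IsHomology (T v)) (M : Model T Y i a) (hM : IsModel M) (hg : IsGS M)
    (bad : Set P) (hbad : bad.Finite) (hgood : ∀ v, v ∉ bad → IsGoodPlace M v)
    (hcl : ∀ v ∈ bad, HasClasses M v) (hY : ∀ v ∈ bad, IsOnto (T v) (Y v) a) :
    LiftsOrthogonally M := by
  classical
  intro c hc
  obtain ⟨x, rfl⟩ := hM.surj c
  obtain ⟨R, hR⟩ := hM.lin
  obtain ⟨y, hyx, hnum⟩ := exists_orthogonal (tr := fun x => M.trivial (M.res x)) hT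
    (fun v f x hx => by rw [hR, map_add, ← hR, ← hR, hM.res_push, add_zero]; exact hx) hM.bilin
    hM.num_ne hbad (fun v hv x z hx => hgood v hv x hx z)
    (fun v hv => by
      obtain ⟨I, D, hI, hD, hF⟩ := hcl v hv
      exact hasForm hI D hD hF) hY hc
  have hy : M.res y = M.res x := by
    have h1 : Submodule.span ℚ (⋃ v, Set.range (M.push v)) ≤ LinearMap.ker R := by
      rw [Submodule.span_le]
      intro z hz
      obtain ⟨v, ⟨f, rfl⟩⟩ := Set.mem_iUnion.1 hz
      rw [SetLike.mem_coe, LinearMap.mem_ker, ← hR]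
      exact hM.res_push v f
    have h2 := h1 hyx
    rwa [LinearMap.mem_ker, map_sub, sub_eq_zero, ← hR, ← hR] at h2
  have hyt : M.trivial (M.res y) := by rw [hy]; exact hc
  have hg := hg y hyt
  have h0 : M.gs y 0 = 0 := by
    have := hg.smul 0 0
    rwa [zero_smul, Rat.cast_zero, zero_mul] at this
  have hall : ∀ z ∈ Submodule.span ℚ (⋃ v, Set.range (M.push' v)), M.gs y z = 0 := by
    intro z hz
    induction hz using Submodule.span_induction with
    | mem z h =>
      obtain ⟨v, ⟨w, rfl⟩⟩ := Set.mem_iUnion.1 h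
      rw [hg.gs_push, hnum, Rat.cast_zero, mul_zero]
    | zero => exact h0
    | add z z' _ _ h1 h2 => rw [hg.add, h1, h2, add_zero]
    | smul q z _ h1 => rw [hg.smul, h1, mul_zero]
  exact ⟨y, hy, fun z hz => hall z (hM.fibral z hz)⟩

end globalpart

end Pool.Agent.R900.BB
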