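import Pool.Agent.R900.BB.KnownDefs
import Pool.Agent.R900.BB.Main
import Pool.Agent.R900.EX.Fermat
import Pool.Agent.W495.FM.Spread

/-!
# Fibres whose Tate classes are known to be algebraic
-/

set_option autoImplicit false

namespace Pool.Agent.R900.BB

open Pool.Agent.W495.FM Pool.Agent.R900.EX

variable {Ω V : Type} [Field Ω] [CharZero Ω] {T : Homology Ω V} {X : V}

theorem onto_of_known (hT : IsHomology T) (hX : IsKnown T X) (i : ℤ) : IsOnto T X i := by
  rcases hX with h | h
  · exact ((tb_fermat hT h).iso hT i).1
  · exact h i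

theorem onto_of_spread (hT : IsHomology T) (hW : HasWeights T) (hX : Spread T (IsKnown T) X)
    (i : ℤ) : IsOnto T X i :=
  onto_spread hT hW (fun _ h i => onto_of_known hT h i) hX i

end Pool.Agent.R900.BB
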