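import Pool.Agent.R900.EX.FermatDefs
import Pool.Agent.R900.BB.Defs

/-!
# Fibres whose Tate classes are known to be algebraic: definitions
-/

set_option autoImplicit false

namespace Pool.Agent.R900.BB

open Pool.Agent.W495.FM Pool.Agent.R900.EX

/-- `X` is generated by products of Fermat varieties, or (for all dimensions of the cycles) the Tate
classes on `X` are algebraic and the eigenvalue one of the Frobenius is semisimple. -/
def IsKnown {Ω V : Type} [Field Ω] (T : Homology Ω V) (X : V) : Prop :=
  Generated T (IsFermat T) X ∨ ∀ i, IsOnto T X i

end Pool.Agent.R900.BB
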